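import Pool.Agent.helper70.BND.SpecH

/-!
# Row bh:FCS (MP_376aaf_an)

A step `+ c j` of the vector of counts.
-/

set_option autoImplicit false

open scoped Topology
open Finset

namespace Pool.Agent.BND.EX

theorem FCS_perm {n : ℕ} {X Z : List ℕ} (hX : ∀ x ∈ X, x < n) (hZ : ∀ x ∈ Z, x < n)
    (h : ∀ v, v < n → X.count v = Z.count v) : X.Perm Z := by
  rw [List.perm_iff_count]
  intro v
  by_cases hv : v < n
  · exact h v hv
  · rw [List.count_eq_zero_of_not_mem fun hm => hv (hX v hm), List.count_eq_zero_of_not_mem fun hm => hv (hZ v hm)]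

theorem FCS_fc (l : Lv) (J : ℕ) {X Z : List ℕ} (h : X.Perm Z) (v : ℕ) : fc l J X v = fc l J Z v := by
  unfold fc
  exact (((h.append_left _).append_right _).cons _).count_eq v

theorem FCS (hFCM : FCM_stmt) (hFBM : FBM_stmt) (hMKL : MKL_stmt) (hWDC : WDC_stmt) (hPTR : PTR_stmt) : FCS_stmt := by
  intro A J κ₀ κ₁ Cc Bb X X' j hA hX hX' hj hBb hnr hnr' hle hcount
  obtain ⟨hlv, -, -, -, -, hne, hgb⟩ := hMKL A hA
  obtain ⟨hgN, hgc⟩ := hgb j hj
  set e := A.gb j with he
  set Wm := A.l.W e false with hWm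
  set Wp := A.l.W e true with hWp
  have hmm : ∀ x ∈ Wm, x < A.n := fun x hx => hlv.mem e hgN false x hx
  have hmp : ∀ x ∈ Wp, x < A.n := fun x hx => hlv.mem e hgN true x hx
  set Y := wd A.n (fun v => X.count v - (-(A.c j v)).toNat) with hY
  obtain ⟨hYc, hYm, -⟩ := hWDC A.n (fun v => X.count v - (-(A.c j v)).toNat)
  have hmY : ∀ x ∈ Wm ++ Y, x < A.n := by
    intro x hx
    rcases List.mem_append.1 hx with h | h
    · exact hmm x h
    · exact hYm x h
  have hpY : ∀ x ∈ Wp ++ Y, x < A.n := by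
    intro x hx
    rcases List.mem_append.1 hx with h | h
    · exact hmp x h
    · exact hYm x h
  have p1 : X.Perm (Wm ++ Y) := by
    refine FCS_perm hX hmY fun v hv => ?_
    have h1 := hYc v
    rw [if_pos hv] at h1
    rw [List.count_append, (hgc v hv).1, h1]
    have := hle v hv
    omega
  have p2 : (Wp ++ Y).Perm X' := by
    refine FCS_perm hpY hX' fun v hv => ?_
    have h1 := hYc v
    rw [if_pos hv] at h1
    rw [List.count_append, (hgc v hv).2, h1]
    have h2 := hle v hv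
    have h3 := hcount v hv
    omega
  have hWm0 : Wm ≠ [] := hne e false hgN
  have hWp0 : Wp ≠ [] := hne e true hgN
  have hX0 : X ≠ [] := by
    intro h
    rw [h] at p1
    have := p1.symm.eq_nil
    exact hWm0 (List.append_eq_nil_iff.1 this).1
  have hp0 : Wp ++ Y ≠ [] := fun h => hWp0 (List.append_eq_nil_iff.1 h).1
  have q1 := hFCM A J κ₀ κ₁ Cc Bb X (Wm ++ Y) hA hX hX0 hBb hnr p1
  have q2 := hFBM A J κ₀ κ₁ Cc Bb [] Y e hA (fun x hx => hYm x (by simpa using hx)) hgN hBb (by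
    have h : (fun v => (fc A.l J ([] ++ (A.l.W e false ++ Y)) v : ℤ)) = fun v => (fc A.l J X v : ℤ) := by
      funext v
      rw [List.nil_append, FCS_fc A.l J p1 v]
    rw [h]
    exact hnr)
  have q3 := hFCM A J κ₀ κ₁ Cc Bb (Wp ++ Y) X' hA hpY hp0 hBb (by
    have h : (fun v => (fc A.l J (Wp ++ Y) v : ℤ)) = fun v => (fc A.l J X' v : ℤ) := by
      funext v
      rw [FCS_fc A.l J p2 v]
    rw [h]
    exact hnr') p2
  rw [List.nil_append, List.nil_append] at q2
  have r := hPTR _ _ _ _ _ _ _ _ _ (hPTR _ _ _ _ _ _ _ _ _ q1 q2) q3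
  rw [Set.empty_union, Set.empty_union] at r
  exact ⟨_, r⟩

end Pool.Agent.BND.EX
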